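import Mathlib

/-!
# The order polytope of the face lattice of the 13-gon is not Ehrhart-nonnegative

The faces of a convex `n`-gon are encoded by their vertex sets, the vertices being labelled in
cyclic order by `ZMod n`.  We prove that the Ehrhart polynomial of the order polytope of the face
lattice of the `13`-gon has linear coefficient `-298495711 / 35302608 < 0`.
-/

namespace Pool.Agent.Lib.Helper12.PolygonEhrhart

open Finset Polynomial
open scoped Pointwise

/-- `IsFace n s` says that `s` is the set of vertices of a face of a convex polygon with `n`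
vertices, labelled in cyclic order by `ZMod n`: the empty face, a vertex `{i}`, an edge
`{i, i + 1}`, or the whole polygon. -/
def IsFace (n : ℕ) [NeZero n] (s : Finset (ZMod n)) : Prop :=
  s = ∅ ∨ (∃ i, s = {i}) ∨ (∃ i, s = {i, i + 1}) ∨ s = Finset.univ

/-- The face lattice of a convex `n`-gon: all its faces (given by their vertex sets), ordered by
inclusion. -/
abbrev FaceLattice (n : ℕ) [NeZero n] : Type := {s : Finset (ZMod n) // IsFace n s}

/-- The order polytope of a poset `P`: the order-preserving points of the cube `[0,1]^P`. -/
def orderPolytope (P : Type) [PartialOrder P] : Set (P → ℝ) :=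
  {x | (∀ a, 0 ≤ x a ∧ x a ≤ 1) ∧ ∀ a b, a ≤ b → x a ≤ x b}

/-- The number of lattice points in the dilate `t • K`. -/
noncomputable def latticePointCount {P : Type} (K : Set (P → ℝ)) (t : ℕ) : ℕ :=
  Set.ncard {z : P → ℤ | (fun a => (z a : ℝ)) ∈ (t : ℝ) • K}

/-- `f` is the Ehrhart polynomial of `K`: for every integer `t ≥ 0`, the value `f(t)` is the number
of lattice points in `t • K`.  (There is at most one such `f`.) -/
def IsEhrhartPolynomial {P : Type} (K : Set (P → ℝ)) (f : ℚ[X]) : Prop :=
  ∀ t : ℕ, f.eval (t : ℚ) = (latticePointCount K t : ℚ)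

end Pool.Agent.Lib.Helper12.PolygonEhrhart
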