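import Mathlib
import Pool.Agent.Lib.Helper12.PolygonEhrhartDefs

/-!
# Proofs for the order polytope of the face lattice of the 13-gon
-/

namespace Pool.Agent.Lib.Helper12.PolygonEhrhart

open Finset Polynomial
open scoped Pointwise

/-! ### Order polynomials as sums over surjections -/

section

/-- monotone maps with image exactly S -/
noncomputable def surjCount (P : Type) [Fintype P] [PartialOrder P] (k : ℕ) : ℕ :=
  Nat.card {f : P →o Fin k // Function.Surjective f}

theorem card_image_eq (P : Type) [Fintype P] [PartialOrder P] (m : ℕ) (S : Finset (Fin m)) :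
    Nat.card {f : P →o Fin m // Set.range f = (S : Set (Fin m))} = surjCount P S.card := by
  classical
  unfold surjCount
  let e := S.orderIsoOfFin rfl
  refine Nat.card_congr ⟨fun f => ⟨⟨fun p => e.symm ⟨f.1 p, ?_⟩, ?_⟩, ?_⟩, fun g => ⟨⟨fun p => (e (g.1 p)).1, ?_⟩, ?_⟩, ?_, ?_⟩
  · have h : f.1 p ∈ Set.range f.1 := ⟨p, rfl⟩
    rw [f.2] at h
    exact h
  · intro a b hab
    apply e.symm.monotone
    exact f.1.monotone hab
  · intro x
    have hx : ((e x).1 : Fin m) ∈ Set.range f.1 := by
      rw [f.2]; exact (e x).2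
    obtain ⟨p, hp⟩ := hx
    refine ⟨p, ?_⟩
    apply e.injective
    change e (e.symm _) = _
    rw [e.apply_symm_apply]
    exact Subtype.ext hp
  · intro a b hab
    exact e.monotone (g.1.monotone hab)
  · ext x
    constructor
    · rintro ⟨p, rfl⟩
      exact (e (g.1 p)).2
    · intro hx
      obtain ⟨p, hp⟩ := g.2 (e.symm ⟨x, hx⟩)
      refine ⟨p, ?_⟩
      change ((e (g.1 p)).1 : Fin m) = x
      rw [hp, e.apply_symm_apply]
  · intro f
    apply Subtype.ext
    ext p
    change (((e (e.symm _)).1 : Fin m) : ℕ) = _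
    rw [e.apply_symm_apply]
  · intro g
    apply Subtype.ext
    ext p
    change ((e.symm (e (g.1 p)) : Fin _) : ℕ) = _
    rw [e.symm_apply_apply]

theorem card_monotone_eq_sum (P : Type) [Fintype P] [PartialOrder P] (m : ℕ) :
    Nat.card (P →o Fin m) = ∑ k ∈ range (m + 1), m.choose k * surjCount P k := by
  classical
  have h1 : Nat.card (P →o Fin m) = ∑ S : Finset (Fin m), Nat.card {f : P →o Fin m // Set.range f = (S : Set (Fin m))} := by
    have : ∀ S : Finset (Fin m), Finite {f : P →o Fin m // Set.range f = (S : Set (Fin m))} := by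
      intro S
      have : Finite (P →o Fin m) := Finite.of_injective (fun f => (f : P → Fin m)) DFunLike.coe_injective
      infer_instance
    rw [← Nat.card_sigma]
    refine Nat.card_congr ⟨fun f => ⟨univ.filter (fun x => ∃ p, f p = x), ⟨f, ?_⟩⟩, fun f => f.2.1, ?_, ?_⟩
    · ext x; simp
    · intro f; rfl
    · rintro ⟨S, f, hf⟩
      have : S = univ.filter (fun x => ∃ p, f p = x) := by
        ext x
        have := Set.ext_iff.1 hf x
        simp at this
        simp [this]
      subst this
      rfl
  rw [h1]
  simp_rw [card_image_eq]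
  have := Finset.sum_powerset_apply_card (fun k => surjCount P k) (x := (univ : Finset (Fin m)))
  simpa using this

theorem surjCount_eq_zero (P : Type) [Fintype P] [PartialOrder P] (k : ℕ) (hk : Fintype.card P < k) :
    surjCount P k = 0 := by
  unfold surjCount
  rw [Nat.card_eq_zero]
  left
  constructor
  rintro ⟨f, hf⟩
  have := Fintype.card_le_of_surjective f hf
  simp at this
  omega

theorem card_monotone_poly (P : Type) [Fintype P] [PartialOrder P] (m : ℕ) :
    (Nat.card (P →o Fin m) : ℚ) = ∑ k ∈ range (Fintype.card P + 1), (m.choose k : ℚ) * surjCount P k := by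
  rw [card_monotone_eq_sum]
  push_cast
  rcases le_total (m+1) (Fintype.card P + 1) with h | h
  · apply Finset.sum_subset
    · intro x hx; simp at hx ⊢; omega
    · intro x _ hx
      simp at hx
      rw [Nat.choose_eq_zero_of_lt (by omega)]
      simp
  · symm
    apply Finset.sum_subset
    · intro x hx; simp at hx ⊢; omega
    · intro x _ hx
      simp at hx
      rw [surjCount_eq_zero P x (by omega)]
      simp

noncomputable def ehrPoly (P : Type) [Fintype P] [PartialOrder P] : ℚ[X] :=
  ∑ k ∈ range (Fintype.card P + 1), C ((surjCount P k : ℚ) / (k.factorial : ℚ)) * (descPochhammer ℚ k).comp (X + 1)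

theorem ehrPoly_eval (P : Type) [Fintype P] [PartialOrder P] (t : ℕ) :
    (ehrPoly P).eval (t : ℚ) = Nat.card (P →o Fin (t + 1)) := by
  rw [card_monotone_poly, ehrPoly, eval_finsetSum]
  apply Finset.sum_congr rfl
  intro k _
  rw [Nat.cast_choose_eq_descPochhammer_div ℚ]
  simp [eval_comp]
  ring

theorem ehrPoly_natDegree (P : Type) [Fintype P] [PartialOrder P] :
    (ehrPoly P).natDegree ≤ Fintype.card P := by
  unfold ehrPoly
  apply Polynomial.natDegree_sum_le_of_forall_le
  intro k hk
  simp at hk
  calc _ ≤ ((descPochhammer ℚ k).comp (X + 1)).natDegree := natDegree_C_mul_le _ _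
    _ = (descPochhammer ℚ k).natDegree * (X + 1 : ℚ[X]).natDegree := natDegree_comp
    _ = k := by
      rw [descPochhammer_natDegree]
      have : (X + 1 : ℚ[X]).natDegree = 1 := by
        simpa using natDegree_X_add_C (1:ℚ)
      rw [this, mul_one]
    _ ≤ _ := by omega

end

/-! ### Lattice points of dilated order polytopes -/

section

theorem mem_smul_orderPolytope (P : Type) [PartialOrder P] (t : ℕ) (z : P → ℤ) :
    (fun a => (z a : ℝ)) ∈ (t : ℝ) • orderPolytope P ↔
      (∀ a, 0 ≤ z a ∧ z a ≤ t) ∧ ∀ a b, a ≤ b → z a ≤ z b := by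
  rcases Nat.eq_zero_or_pos t with rfl | ht
  · have hne : (orderPolytope P).Nonempty := ⟨fun _ => 0, by simp [orderPolytope]⟩
    rw [Nat.cast_zero, Set.zero_smul_set hne]
    constructor
    · intro h
      have h' : ∀ a, z a = 0 := by
        intro a
        have := congrFun (Set.mem_zero.1 h) a
        simpa using this
      simp [h']
    · rintro ⟨h1, _⟩
      rw [Set.mem_zero]
      funext a
      have := h1 a
      have h0 : z a = 0 := by
        have h1 := this.1
        have h2 := this.2
        simp at h2
        omega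
      simp [h0]
  · have ht' : (0:ℝ) < t := by exact_mod_cast ht
    rw [Set.mem_smul_set_iff_inv_smul_mem₀ ht'.ne']
    simp only [orderPolytope, Set.mem_ofPred_eq, Pi.smul_apply, smul_eq_mul]
    constructor
    · rintro ⟨h1, h2⟩
      refine ⟨fun a => ?_, fun a b hab => ?_⟩
      · obtain ⟨h3, h4⟩ := h1 a
        rw [inv_mul_le_iff₀ ht', mul_one] at h4
        have h5 : (0:ℝ) ≤ z a := by
          have := mul_nonneg ht'.le h3
          rwa [← mul_assoc, mul_inv_cancel₀ ht'.ne', one_mul] at this
        exact ⟨by exact_mod_cast h5, by exact_mod_cast h4⟩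
      · have := h2 a b hab
        have := le_of_mul_le_mul_left this (inv_pos.2 ht')
        exact_mod_cast this
    · rintro ⟨h1, h2⟩
      refine ⟨fun a => ⟨?_, ?_⟩, fun a b hab => ?_⟩
      · have : (0:ℝ) ≤ z a := by exact_mod_cast (h1 a).1
        positivity
      · rw [inv_mul_le_iff₀ ht', mul_one]
        exact_mod_cast (h1 a).2
      · have : (z a : ℝ) ≤ z b := by exact_mod_cast h2 a b hab
        exact mul_le_mul_of_nonneg_left this (inv_pos.2 ht').le

theorem latticePointCount_orderPolytope (P : Type) [PartialOrder P] (t : ℕ) :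
    latticePointCount (orderPolytope P) t = Nat.card (P →o Fin (t + 1)) := by
  unfold latticePointCount
  rw [← Nat.card_coe_set_eq]
  refine Nat.card_congr ⟨fun z => ⟨fun a => ⟨(z.1 a).toNat, ?_⟩, ?_⟩, fun f => ⟨fun a => ((f a : ℕ) : ℤ), ?_⟩, ?_, ?_⟩
  · have := ((mem_smul_orderPolytope P t z.1).1 z.2).1 a
    omega
  · intro a b hab
    have h1 := ((mem_smul_orderPolytope P t z.1).1 z.2).1 a
    have h2 := ((mem_smul_orderPolytope P t z.1).1 z.2).2 a b hab
    simp only [Fin.mk_le_mk]
    omega
  · rw [Set.mem_ofPred_eq, mem_smul_orderPolytope]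
    refine ⟨fun a => ?_, fun a b hab => ?_⟩
    · have := (f a).2
      omega
    · have := f.monotone hab
      exact_mod_cast this
  · intro z
    apply Subtype.ext
    funext a
    have := ((mem_smul_orderPolytope P t z.1).1 z.2).1 a
    simp only [OrderHom.coe_mk]
    omega
  · intro f
    ext a
    simp

end

/-! ### Closed walks and traces -/

section

section trace
variable {α R : Type} [Fintype α] [DecidableEq α] [CommSemiring R]

theorem path_sum (K : Matrix α α R) (n : ℕ) (x : α) (g : α → R) :
    ∑ w : Fin (n + 1) → α, (if w 0 = x then (∏ i : Fin n, K (w i.castSucc) (w i.succ)) * g (w (Fin.last n)) else 0)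
      = ((K ^ n).mulVec g) x := by
  induction n generalizing g with
  | zero =>
    simp only [Finset.univ_eq_empty, Finset.prod_empty, one_mul, pow_zero, Matrix.one_mulVec]
    rw [← (Equiv.funUnique (Fin 1) α).symm.sum_comp]
    simp [Finset.sum_ite_eq']
  | succ n ih =>
    rw [← (Fin.snocEquiv (fun _ : Fin (n+2) => α)).sum_comp, Fintype.sum_prod_type_right]
    have h0 : ∀ (p : α) (w : Fin (n+1) → α), (Fin.snocEquiv (fun _ : Fin (n+2) => α)) (p, w) = (Fin.snoc w p : Fin (n+2) → α) := fun _ _ => rfl
    simp only [h0]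
    have h1 : ∀ (w : Fin (n+1) → α) (y : α), (Fin.snoc w y : Fin (n+2) → α) 0 = w 0 := by
      intro w y
      exact Fin.snoc_castSucc (α := fun _ => α) (i := 0) ..
    simp only [h1]
    simp only [Fin.prod_univ_castSucc (n := n), Fin.succ_last, Fin.snoc_last, Fin.succ_castSucc, Fin.snoc_castSucc]
    rw [pow_succ, ← Matrix.mulVec_mulVec, ← ih (K.mulVec g)]
    apply Finset.sum_congr rfl
    intro w _
    split_ifs with h
    · simp only [Matrix.mulVec, dotProduct]
      rw [Finset.mul_sum]
      apply Finset.sum_congr rfl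
      intro y _
      ring
    · simp

theorem cycle_sum (K : Matrix α α R) (n : ℕ) :
    ∑ w : Fin (n + 1) → α, ∏ i : Fin (n+1), K (w i) (w (i + 1)) = (K ^ (n + 1)).trace := by
  have h1 : ∀ w : Fin (n + 1) → α, ∏ i : Fin (n+1), K (w i) (w (i + 1)) =
      ∑ x : α, (if w 0 = x then (∏ i : Fin n, K (w i.castSucc) (w i.succ)) * K (w (Fin.last n)) x else 0) := by
    intro w
    rw [Finset.sum_ite_eq]
    simp [Fin.prod_univ_castSucc]
  simp_rw [h1]
  rw [Finset.sum_comm]
  unfold Matrix.trace
  apply Finset.sum_congr rfl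
  intro x _
  rw [path_sum K n x (fun y => K y x), pow_succ]
  rfl

end trace

end

/-! ### Monotone maps on the face lattice -/

section

variable {n : ℕ} [NeZero n]

theorem one_ne (hn : 3 ≤ n) : (1 : ZMod n) ≠ 0 := by
  have : Fact (1 < n) := ⟨by omega⟩
  exact one_ne_zero

theorem two_ne (hn : 3 ≤ n) : (1 + 1 : ZMod n) ≠ 0 := by
  intro h
  have h2 : ((2 : ℕ) : ZMod n) = 0 := by
    push_cast
    rw [← h]; norm_num
  rw [ZMod.natCast_eq_zero_iff] at h2
  have := Nat.le_of_dvd (by norm_num) h2
  omega

def bot : FaceLattice n := ⟨∅, Or.inl rfl⟩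
def vert (i : ZMod n) : FaceLattice n := ⟨{i}, Or.inr (Or.inl ⟨i, rfl⟩)⟩
def edge (i : ZMod n) : FaceLattice n := ⟨{i, i + 1}, Or.inr (Or.inr (Or.inl ⟨i, rfl⟩))⟩
def top : FaceLattice n := ⟨Finset.univ, Or.inr (Or.inr (Or.inr rfl))⟩

theorem card_edge (hn : 3 ≤ n) (i : ZMod n) : ({i, i + 1} : Finset (ZMod n)).card = 2 := by
  apply Finset.card_pair
  intro h
  have : (1 : ZMod n) = 0 := by
    have h' : i + 0 = i + 1 := by simpa using h
    exact (add_left_cancel h').symm
  exact one_ne hn this

theorem edge_inj (hn : 3 ≤ n) {i j : ZMod n} (h : ({i, i + 1} : Finset (ZMod n)) = {j, j + 1}) : i = j := by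
  have hi : i ∈ ({j, j + 1} : Finset (ZMod n)) := by rw [← h]; simp
  have hi1 : i + 1 ∈ ({j, j + 1} : Finset (ZMod n)) := by rw [← h]; simp
  simp only [Finset.mem_insert, Finset.mem_singleton] at hi hi1
  rcases hi with rfl | hi
  · rfl
  · exfalso
    rcases hi1 with h1 | h1
    · rw [hi, add_assoc] at h1
      have : (1 + 1 : ZMod n) = 0 := by
        have h' : j + (1 + 1) = j + 0 := by simpa using h1
        exact add_left_cancel h'
      exact two_ne hn this
    · have h2 : i = j := add_right_cancel h1
      rw [h2] at hi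
      have : (1 : ZMod n) = 0 := by
        have h' : j + 0 = j + 1 := by simpa using hi
        exact (add_left_cancel h').symm
      exact one_ne hn this

/-- combine values -/
noncomputable def ofData {m : ℕ} (a b : Fin m) (v e : ZMod n → Fin m) (s : Finset (ZMod n)) : Fin m := by
  classical
  exact if s = ∅ then a else if s = Finset.univ then b else
    if h : ∃ i, s = {i} then v h.choose else
    if h : ∃ i, s = {i, i + 1} then e h.choose else b

section
variable {m : ℕ} (a b : Fin m) (v e : ZMod n → Fin m)

theorem ofData_empty : ofData a b v e ∅ = a := by simp [ofData]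

theorem univ_ne_empty : (Finset.univ : Finset (ZMod n)) ≠ ∅ := by
  intro h
  have := Finset.mem_univ (0 : ZMod n)
  rw [h] at this
  simp at this

theorem ofData_univ : ofData a b v e Finset.univ = b := by
  unfold ofData
  rw [if_neg univ_ne_empty, if_pos rfl]

theorem univ_card : (Finset.univ : Finset (ZMod n)).card = n := by
  rw [Finset.card_univ, ZMod.card]

theorem ofData_vert (hn : 3 ≤ n) (i : ZMod n) : ofData a b v e {i} = v i := by
  unfold ofData
  have h : ∃ j, ({i} : Finset (ZMod n)) = {j} := ⟨i, rfl⟩
  rw [if_neg (by simp), if_neg, dif_pos h]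
  · have := h.choose_spec
    rw [Finset.singleton_inj] at this
    rw [← this]
  · intro h
    have := congrArg Finset.card h
    rw [univ_card] at this
    simp at this
    omega

theorem ofData_edge (hn : 3 ≤ n) (i : ZMod n) : ofData a b v e {i, i + 1} = e i := by
  unfold ofData
  have h : ∃ j, ({i, i + 1} : Finset (ZMod n)) = {j, j + 1} := ⟨i, rfl⟩
  rw [if_neg (by simp), if_neg, dif_neg, dif_pos h]
  · have := h.choose_spec
    rw [← edge_inj hn this]
  · rintro ⟨j, hj⟩
    have := congrArg Finset.card hj
    rw [card_edge hn] at this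
    simp at this
  · intro h
    have := congrArg Finset.card h
    rw [univ_card, card_edge hn] at this
    omega

end

/-- the data of a monotone map -/
def Good {m : ℕ} (a b : Fin m) (p : (ZMod n → Fin m) × (ZMod n → Fin m)) : Prop :=
  (∀ i, a ≤ p.1 i ∧ p.1 i ≤ b) ∧ (∀ i, a ≤ p.2 i ∧ p.2 i ≤ b) ∧ (∀ i, p.1 i ≤ p.2 i ∧ p.1 (i + 1) ≤ p.2 i)

theorem ofData_mono (hn : 3 ≤ n) {m : ℕ} (a b : Fin m) (v e : ZMod n → Fin m) (hab : a ≤ b) (h : Good a b (v, e))
    (s t : FaceLattice n) (hst : s ≤ t) : ofData a b v e s.1 ≤ ofData a b v e t.1 := by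
  obtain ⟨s, hs⟩ := s
  obtain ⟨t, ht⟩ := t
  have hst' : s ⊆ t := hst
  obtain ⟨h1, h2, h3⟩ := h
  simp only at h1 h2 h3
  simp only
  rcases hs with rfl | ⟨i, rfl⟩ | ⟨i, rfl⟩ | rfl
  · rw [ofData_empty]
    rcases ht with rfl | ⟨j, rfl⟩ | ⟨j, rfl⟩ | rfl
    · rw [ofData_empty]
    · rw [ofData_vert _ _ _ _ hn]; exact (h1 j).1
    · rw [ofData_edge _ _ _ _ hn]; exact (h2 j).1
    · rw [ofData_univ]; exact hab
  · rw [ofData_vert _ _ _ _ hn]
    rcases ht with rfl | ⟨j, rfl⟩ | ⟨j, rfl⟩ | rfl
    · simp at hst'
    · simp at hst'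
      subst hst'
      rw [ofData_vert _ _ _ _ hn]
    · rw [ofData_edge _ _ _ _ hn]
      simp at hst'
      rcases hst' with rfl | rfl
      · exact (h3 _).1
      · exact (h3 _).2
    · rw [ofData_univ]; exact (h1 i).2
  · rw [ofData_edge _ _ _ _ hn]
    have hcard := card_edge hn i
    rcases ht with rfl | ⟨j, rfl⟩ | ⟨j, rfl⟩ | rfl
    · simp at hst'
    · have := Finset.card_le_card hst'
      rw [hcard] at this
      simp at this
    · have := Finset.eq_of_subset_of_card_le hst' (by rw [card_edge hn, card_edge hn])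
      rw [edge_inj hn this, ofData_edge _ _ _ _ hn]
    · rw [ofData_univ]; exact (h2 i).2
  · have : t = Finset.univ := by
      apply Finset.eq_univ_of_forall
      intro x
      exact hst' (Finset.mem_univ x)
    subst this
    exact le_refl _

noncomputable def homEquiv (hn : 3 ≤ n) (m : ℕ) :
    (FaceLattice n →o Fin m) ≃ Σ (ab : {ab : Fin m × Fin m // ab.1 ≤ ab.2}), {p : (ZMod n → Fin m) × (ZMod n → Fin m) // Good ab.1.1 ab.1.2 p} where
  toFun f := ⟨⟨(f bot, f top), f.monotone (by intro x; simp [top])⟩,
    ⟨(fun i => f (vert i), fun i => f (edge i)), by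
      refine ⟨fun i => ⟨f.monotone ?_, f.monotone ?_⟩, fun i => ⟨f.monotone ?_, f.monotone ?_⟩, fun i => ⟨f.monotone ?_, f.monotone ?_⟩⟩
      all_goals intro x; simp [bot, top, vert, edge]
      · intro h; left; exact h
      · intro h; right; exact h⟩⟩
  invFun d := ⟨fun s => ofData d.1.1.1 d.1.1.2 d.2.1.1 d.2.1.2 s.1, fun s t hst =>
    ofData_mono hn _ _ _ _ d.1.2 d.2.2 s t hst⟩
  left_inv f := by
    ext s
    obtain ⟨s, hs⟩ := s
    change ((ofData _ _ _ _ s : Fin m) : ℕ) = _
    rcases hs with rfl | ⟨i, rfl⟩ | ⟨i, rfl⟩ | rfl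
    · rw [ofData_empty]; rfl
    · rw [ofData_vert _ _ _ _ hn]; rfl
    · rw [ofData_edge _ _ _ _ hn]; rfl
    · rw [ofData_univ]; rfl
  right_inv d := by
    obtain ⟨⟨⟨a, b⟩, hab⟩, ⟨⟨v, e⟩, h⟩⟩ := d
    have ha : ofData a b v e ∅ = a := ofData_empty a b v e
    have hb : ofData a b v e Finset.univ = b := ofData_univ a b v e
    have hv : (fun i => ofData a b v e {i}) = v := funext (fun i => ofData_vert a b v e hn i)
    have he : (fun i => ofData a b v e {i, i+1}) = e := funext (fun i => ofData_edge a b v e hn i)
    apply Sigma.ext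
    · apply Subtype.ext
      exact Prod.ext ha hb
    · change HEq (⟨(fun i => ofData a b v e {i}, fun i => ofData a b v e {i, i+1}), _⟩ : {p : (ZMod n → Fin m) × (ZMod n → Fin m) // Good (ofData a b v e ∅) (ofData a b v e Finset.univ) p}) (⟨(v, e), h⟩ : {p : (ZMod n → Fin m) × (ZMod n → Fin m) // Good a b p})
      congr 1
      · funext p
        rw [ha, hb]
      · rw [hv, he]
      · apply proof_irrel_heq

end

/-! ### Counting monotone maps -/

section

variable {n : ℕ} [NeZero n]

/-- number of crown configurations with values in `Fin L` -/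
noncomputable def crownCount (n L : ℕ) : ℕ :=
  Nat.card {p : (ZMod n → Fin L) × (ZMod n → Fin L) // ∀ i, p.1 i ≤ p.2 i ∧ p.1 (i + 1) ≤ p.2 i}

theorem card_good {m : ℕ} (a b : Fin m) (hab : a ≤ b) :
    Nat.card {p : (ZMod n → Fin m) × (ZMod n → Fin m) // Good a b p} = crownCount n (b.val - a.val + 1) := by
  classical
  unfold crownCount
  have hc : (Finset.Icc a b).card = b.val - a.val + 1 := by
    rw [Fin.card_Icc]
    have : a.val ≤ b.val := hab
    omega
  let e := (Finset.Icc a b).orderIsoOfFin hc
  have hmem : ∀ x : Fin (b.val - a.val + 1), a ≤ (e x).1 ∧ (e x).1 ≤ b := by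
    intro x
    have := (e x).2
    rwa [Finset.mem_Icc] at this
  symm
  refine Nat.card_congr ⟨fun p => ⟨(fun i => (e (p.1.1 i)).1, fun i => (e (p.1.2 i)).1), ?_⟩,
    fun p => ⟨(fun i => e.symm ⟨p.1.1 i, ?_⟩, fun i => e.symm ⟨p.1.2 i, ?_⟩), ?_⟩, ?_, ?_⟩
  · refine ⟨fun i => hmem _, fun i => hmem _, fun i => ⟨?_, ?_⟩⟩
    · exact e.monotone (p.2 i).1
    · exact e.monotone (p.2 i).2
  · exact Finset.mem_Icc.2 (p.2.1 i)
  · exact Finset.mem_Icc.2 (p.2.2.1 i)
  · intro i
    exact ⟨e.symm.monotone (p.2.2.2 i).1, e.symm.monotone (p.2.2.2 i).2⟩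
  · intro p
    apply Subtype.ext
    apply Prod.ext
    · funext i
      change e.symm (e _) = _
      rw [e.symm_apply_apply]
    · funext i
      change e.symm (e _) = _
      rw [e.symm_apply_apply]
  · intro p
    apply Subtype.ext
    apply Prod.ext
    · funext i
      change (e (e.symm _)).1 = _
      rw [e.apply_symm_apply]
    · funext i
      change (e (e.symm _)).1 = _
      rw [e.apply_symm_apply]

theorem card_hom (hn : 3 ≤ n) (m : ℕ) :
    Nat.card (FaceLattice n →o Fin m) = ∑ b ∈ range m, ∑ j ∈ range (b + 1), crownCount n (j + 1) := by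
  classical
  rw [Nat.card_congr (homEquiv hn m), Nat.card_sigma]
  have h1 : ∀ x : {ab : Fin m × Fin m // ab.1 ≤ ab.2},
      Nat.card {p : (ZMod n → Fin m) × (ZMod n → Fin m) // Good x.1.1 x.1.2 p} = crownCount n (x.1.2.val - x.1.1.val + 1) := by
    intro x
    exact card_good _ _ x.2
  simp_rw [h1]
  rw [← Finset.sum_subtype (Finset.univ.filter (fun ab : Fin m × Fin m => ab.1 ≤ ab.2)) (by intro x; simp)
    (fun ab => crownCount n (ab.2.val - ab.1.val + 1))]
  rw [Finset.sum_filter, Fintype.sum_prod_type_right, Finset.sum_range]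
  apply Finset.sum_congr rfl
  intro b _
  rw [← Finset.sum_filter]
  have h2 := Finset.sum_range_reflect (fun j => crownCount n (j + 1)) (b.val + 1)
  rw [← h2]
  symm
  refine Finset.sum_bij' (fun j hj => (⟨j, by rw [Finset.mem_range] at hj; omega⟩ : Fin m)) (fun a _ => a.val) ?_ ?_ ?_ ?_ ?_
  · intro j hj
    rw [Finset.mem_range] at hj
    simp only [Finset.mem_filter, Finset.mem_univ, true_and, Fin.le_def]
    omega
  · intro a ha
    simp only [Finset.mem_filter, Finset.mem_univ, true_and, Fin.le_def] at ha
    rw [Finset.mem_range]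
    omega
  · intro j hj; rfl
  · intro a ha; rfl
  · intro j hj
    rw [Finset.mem_range] at hj
    simp only
    congr 1

end

/-! ### Transfer matrix and list computation -/

section

def Bmat (L : ℕ) : Matrix (Fin L) (Fin L) ℕ := fun i j => if i.val + j.val < L then 1 else 0

theorem crownCount_eq_sum (n L : ℕ) [NeZero n] : crownCount n L =
    ∑ v : ZMod n → Fin L, ∏ i, (Bmat L * Bmat L) (v i) (v (i + 1)) := by
  classical
  unfold crownCount
  have e : {p : (ZMod n → Fin L) × (ZMod n → Fin L) // ∀ i, p.1 i ≤ p.2 i ∧ p.1 (i + 1) ≤ p.2 i} ≃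
      Σ v : ZMod n → Fin L, ∀ i, {e : Fin L // v i ≤ e ∧ v (i + 1) ≤ e} :=
    ⟨fun p => ⟨p.1.1, fun i => ⟨p.1.2 i, p.2 i⟩⟩, fun q => ⟨(q.1, fun i => (q.2 i).1), fun i => (q.2 i).2⟩,
      fun _ => rfl, fun _ => rfl⟩
  rw [Nat.card_congr e, Nat.card_sigma]
  apply Finset.sum_congr rfl
  intro v _
  rw [Nat.card_pi]
  apply Finset.prod_congr rfl
  intro i _
  rw [Matrix.mul_apply]
  have h1 : ∀ x y : Fin L, ∀ j : Fin L, Bmat L x j * Bmat L j y = if x ≤ Fin.rev j ∧ y ≤ Fin.rev j then 1 else 0 := by
    intro x y j
    simp only [Bmat, Fin.le_def, Fin.val_rev]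
    have := j.2
    have := x.2
    have := y.2
    split_ifs <;> first | rfl | omega
  simp_rw [h1]
  rw [Finset.sum_boole, Nat.card_eq_fintype_card, Fintype.card_subtype]
  simp only [Nat.cast_id]
  symm
  apply Finset.card_bij' (fun j _ => Fin.rev j) (fun j _ => Fin.rev j)
  · intro j hj; simpa using hj
  · intro j hj; simpa using hj
  · intro j hj; simp
  · intro j hj; simp

theorem crownCount_eq_trace (k L : ℕ) : crownCount (k + 1) L = ((Bmat L) ^ (2 * (k + 1))).trace := by
  rw [crownCount_eq_sum, pow_mul, pow_two]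
  exact cycle_sum (Bmat L * Bmat L) k

/-! ### list computation -/

def stepGo (xs : List ℕ) : ℕ → List ℕ → List ℕ :=
  List.rec (motive := fun _ => ℕ → List ℕ → List ℕ) (fun _ out => out)
    (fun x _ ih acc out => Nat.rec (motive := fun _ => List ℕ) (ih 0 (0 :: out)) (fun s _ => ih (s+1) ((s+1) :: out)) (acc + x)) xs

def step (l : List ℕ) : List ℕ := stepGo l 0 []

def iter (k : ℕ) (l : List ℕ) : List ℕ := Nat.rec l (fun _ r => step r) k

def unitL (L i : ℕ) : List ℕ := (List.range L).map (fun j => if j = i then 1 else 0)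

def traceL (L k : ℕ) : ℕ := ((List.range L).map (fun i => (iter k (unitL L i)).getD i 0)).sum

theorem stepGo_nil (acc : ℕ) (out : List ℕ) : stepGo [] acc out = out := rfl

theorem stepGo_cons (x : ℕ) (xs : List ℕ) (acc : ℕ) (out : List ℕ) :
    stepGo (x :: xs) acc out = stepGo xs (acc + x) ((acc + x) :: out) := by
  change Nat.rec (motive := fun _ => List ℕ) (stepGo xs 0 (0 :: out)) (fun s _ => stepGo xs (s+1) ((s+1) :: out)) (acc + x) = _
  cases (acc + x) <;> rfl

theorem stepGo_length (xs : List ℕ) : ∀ (acc : ℕ) (out : List ℕ), (stepGo xs acc out).length = xs.length + out.length := by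
  induction xs with
  | nil => intro acc out; simp [stepGo_nil]
  | cons x xs ih => intro acc out; rw [stepGo_cons, ih]; simp; omega

theorem stepGo_getD_out (xs : List ℕ) : ∀ (acc : ℕ) (out : List ℕ) (i : ℕ), xs.length ≤ i →
    (stepGo xs acc out).getD i 0 = out.getD (i - xs.length) 0 := by
  induction xs with
  | nil => intro acc out i _; simp [stepGo_nil]
  | cons x xs ih =>
    intro acc out i hi
    simp only [List.length_cons] at hi
    rw [stepGo_cons, ih _ _ _ (by omega)]
    rw [show i - xs.length = (i - (x :: xs).length) + 1 by simp only [List.length_cons]; omega]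
    rw [List.getD_cons_succ]

theorem stepGo_getD (xs : List ℕ) : ∀ (acc : ℕ) (out : List ℕ) (i : ℕ), i < xs.length →
    (stepGo xs acc out).getD i 0 = acc + (xs.take (xs.length - i)).sum := by
  induction xs with
  | nil => intro acc out i hi; simp at hi
  | cons x xs ih =>
    intro acc out i hi
    rw [stepGo_cons]
    simp only [List.length_cons] at hi ⊢
    rcases Nat.lt_or_ge i xs.length with h | h
    · rw [ih _ _ _ h]
      rw [show xs.length + 1 - i = (xs.length - i) + 1 by omega, List.take_succ_cons, List.sum_cons]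
      ring
    · have hi' : i = xs.length := by omega
      subst hi'
      rw [stepGo_getD_out _ _ _ _ le_rfl]
      simp

theorem step_getD (xs : List ℕ) (i : ℕ) (hi : i < xs.length) :
    (step xs).getD i 0 = ∑ j ∈ range (xs.length - i), xs.getD j 0 := by
  unfold step
  rw [stepGo_getD _ _ _ _ hi, zero_add]
  generalize xs.length - i = k
  induction k with
  | zero => simp
  | succ k ih =>
    rw [Finset.sum_range_succ, ← ih, List.take_add_one, List.sum_append]
    congr 1
    rw [List.getD_eq_getElem?_getD]
    cases xs[k]? <;> simp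

theorem step_length (xs : List ℕ) : (step xs).length = xs.length := by
  unfold step; rw [stepGo_length]; simp

theorem iter_succ (k : ℕ) (l : List ℕ) : iter (k + 1) l = step (iter k l) := rfl

theorem iter_length (k : ℕ) (l : List ℕ) : (iter k l).length = l.length := by
  induction k with
  | zero => rfl
  | succ k ih => rw [iter_succ, step_length, ih]

theorem iter_spec (L k : ℕ) (l : List ℕ) (hl : l.length = L) (i : Fin L) :
    (iter k l).getD i.val 0 = ((Bmat L ^ k).mulVec (fun j : Fin L => l.getD j.val 0)) i := by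
  induction k generalizing i with
  | zero => simp [iter]
  | succ k ih =>
    rw [iter_succ, pow_succ', ← Matrix.mulVec_mulVec, step_getD _ _ (by rw [iter_length, hl]; exact i.2), iter_length, hl]
    simp only [Matrix.mulVec, dotProduct] at ih ⊢
    simp_rw [← ih]
    have hi := i.2
    have h1 : ∀ x : Fin L, Bmat L i x * (iter k l).getD x.val 0 = if x.val < L - i.val then (iter k l).getD x.val 0 else 0 := by
      intro x
      simp only [Bmat]
      have := x.2
      by_cases h : i.val + x.val < L
      · rw [if_pos h, if_pos (by omega), one_mul]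
      · rw [if_neg h, if_neg (by omega), zero_mul]
    simp_rw [h1]
    rw [Fin.sum_univ_eq_sum_range (fun x => if x < L - i.val then (iter k l).getD x 0 else 0) L]
    rw [← Finset.sum_filter]
    apply Finset.sum_congr _ (fun _ _ => rfl)
    ext x
    simp only [Finset.mem_range, Finset.mem_filter]
    omega

theorem traceL_eq (L k : ℕ) : traceL L k = (Bmat L ^ k).trace := by
  have h0 : traceL L k = ∑ i ∈ range L, (iter k (unitL L i)).getD i 0 := rfl
  rw [h0, Finset.sum_range]
  unfold Matrix.trace
  apply Finset.sum_congr rfl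
  intro i _
  rw [iter_spec L k (unitL L i.val) (by simp [unitL]) i, Matrix.diag_apply]
  have h1 : (fun j : Fin L => (unitL L i.val).getD j.val 0) = Pi.single i 1 := by
    funext j
    rw [List.getD_eq_getElem _ _ (by simp [unitL])]
    simp only [unitL, List.getElem_map, List.getElem_range]
    by_cases h : j = i
    · subst h; simp
    · rw [if_neg (fun hh => h (Fin.ext hh)), Pi.single_eq_of_ne h]
  rw [h1, Matrix.mulVec_single_one]
  rfl

theorem card_hom_eq (k m : ℕ) (hk : 2 ≤ k) :
    Nat.card (FaceLattice (k + 1) →o Fin m) = ∑ b ∈ range m, ∑ j ∈ range (b + 1), traceL (j + 1) (2 * (k + 1)) := by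
  rw [card_hom (by omega)]
  apply Finset.sum_congr rfl
  intro b _
  apply Finset.sum_congr rfl
  intro j _
  rw [crownCount_eq_trace, traceL_eq]

end

/-! ### Numerical data for the 13-gon -/

section

def Tvals : List ℕ := [1,
  271443,
  1385407029,
  874569107071,
  154424192534978,
  11590981980134136,
  471109005712845073,
  12073893516637797647,
  216054227528911051598,
  2899588931289770319928,
  30747252105854418602807,
  267900870986039891665533,
  1976658261038065237688965,
  12646583259151935165028659,
  71505544338055517905383002,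
  362852466483982941465664294,
  1673644967862052696066138463,
  7091534775916075003484209649,
  27850704697432295249191815709,
  102151810477267331847970867095,
  352204279293140920190902505756,
  1147947037059968833062938517298,
  3554264799119307289506871036659,
  10498698066409011044245276217901,
  29697044023575712453995735900724,
  80710316446302004065351530568318,
  211382155607852560741336416052863,
  534907644994676627454203692327477,
  1310960487246736777485104974336647]

def Dnum : ℤ := 22903271079605908992000000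

def coefs : List ℤ := [22903271079605908992000000,
  -193655046254166360864000000,
  5538164229477402901489440000,
  17003847111356689089733584000,
  38640528544457571935292212400,
  120626190972553059397803850560,
  287137053559460504041772306904,
  498589600868502291064999129320,
  722589820154798132800102112091,
  910175559026999213557926317000,
  980043216904728583759937393180,
  899321041831723525253793153600,
  710964252495489207549589352370,
  487354321260776552444015918400,
  289365582365488774861349443740,
  148390775761467757199289749400,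
  65588755744399188187113158235,
  24910346735638729938169342200,
  8077740585772903614175403160,
  2214091259178613774111152000,
  506507612847433611605231040,
  95323013842176169739289600,
  14519098597064981797662720,
  1754884805651741878732800,
  163979737580072320058880,
  11404343491836246282240,
  555237894683185975296,
  16879398059877498880,
  241134257998249984]

theorem Tvals_spec : (List.range 29).map (fun j => traceL (j + 1) 26) = Tvals := by decide +kernel

def polyEval (t : ℕ) : ℤ := ((List.range 29).map (fun i => coefs.getD i 0 * (t : ℤ) ^ i)).sum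

def Fval (t : ℕ) : ℕ := ((List.range (t + 1)).map (fun b => ((List.range (b + 1)).map (fun j => Tvals.getD j 0)).sum)).sum

theorem poly_spec : ∀ t < 29, polyEval t = Dnum * (Fval t : ℤ) := by decide +kernel

theorem coef1 : coefs.getD 1 0 * 35302608 = -298495711 * Dnum := by decide +kernel

end

/-! ### The final result -/

section

noncomputable instance faceFintype (n : ℕ) [NeZero n] : Fintype (FaceLattice n) := Fintype.ofFinite _

theorem card_face_le (n : ℕ) [NeZero n] : Fintype.card (FaceLattice n) ≤ 2 + (n + n) := by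
  have h : Function.Surjective (fun x : Bool ⊕ (ZMod n ⊕ ZMod n) =>
      (Sum.elim (fun b => if b then bot else top) (Sum.elim vert edge) x : FaceLattice n)) := by
    rintro ⟨s, rfl | ⟨i, rfl⟩ | ⟨i, rfl⟩ | rfl⟩
    · exact ⟨Sum.inl true, rfl⟩
    · exact ⟨Sum.inr (Sum.inl i), rfl⟩
    · exact ⟨Sum.inr (Sum.inr i), rfl⟩
    · exact ⟨Sum.inl false, rfl⟩
  have := Fintype.card_le_of_surjective _ h
  simpa [ZMod.card] using this

/-- the explicit polynomial -/
noncomputable def gPoly : ℚ[X] := ∑ i ∈ range 29, C ((coefs.getD i 0 : ℚ) / (Dnum : ℚ)) * X ^ i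

theorem Dnum_ne : (Dnum : ℚ) ≠ 0 := by unfold Dnum; norm_num

theorem gPoly_natDegree : gPoly.natDegree ≤ 28 := by
  unfold gPoly
  apply Polynomial.natDegree_sum_le_of_forall_le
  intro k hk
  rw [Finset.mem_range] at hk
  exact (natDegree_C_mul_X_pow_le _ _).trans (by omega)

theorem gPoly_eval (t : ℕ) : gPoly.eval (t : ℚ) = (polyEval t : ℚ) / (Dnum : ℚ) := by
  have h0 : polyEval t = ∑ i ∈ range 29, coefs.getD i 0 * (t : ℤ) ^ i := rfl
  rw [h0, gPoly, eval_finsetSum]
  push_cast
  rw [Finset.sum_div]
  apply Finset.sum_congr rfl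
  intro i _
  simp only [eval_mul, eval_C, eval_pow, eval_X]
  ring

theorem traceL_val (j : ℕ) (hj : j < 29) : traceL (j + 1) 26 = Tvals.getD j 0 := by
  rw [← Tvals_spec, List.getD_eq_getElem _ _ (by simpa using hj)]
  simp

theorem card_hom_thirteen (t : ℕ) (ht : t < 29) : Nat.card (FaceLattice 13 →o Fin (t + 1)) = Fval t := by
  have h := card_hom_eq 12 (t + 1) (by norm_num)
  have h0 : Fval t = ∑ b ∈ range (t + 1), ∑ j ∈ range (b + 1), Tvals.getD j 0 := rfl
  have h1 : Nat.card (FaceLattice 13 →o Fin (t + 1)) =
      ∑ b ∈ range (t + 1), ∑ j ∈ range (b + 1), traceL (j + 1) 26 := h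
  rw [h1, h0]
  apply Finset.sum_congr rfl
  intro b hb
  apply Finset.sum_congr rfl
  intro j hj
  rw [Finset.mem_range] at hb hj
  exact traceL_val j (by omega)

theorem ehrPoly_eq_gPoly : ehrPoly (FaceLattice 13) = gPoly := by
  apply Polynomial.eq_of_degree_sub_lt_of_eval_finset_eq ((Finset.range 29).image (fun t : ℕ => (t : ℚ)))
  · rw [Finset.card_image_of_injective _ Nat.cast_injective, Finset.card_range]
    have h1 : (ehrPoly (FaceLattice 13) - gPoly).natDegree ≤ 28 := by
      refine (natDegree_sub_le _ _).trans (max_le ?_ gPoly_natDegree)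
      exact (ehrPoly_natDegree _).trans (card_face_le 13)
    exact lt_of_le_of_lt degree_le_natDegree (by exact_mod_cast Nat.lt_succ_of_le h1)
  · intro x hx
    rw [Finset.mem_image] at hx
    obtain ⟨t, ht, rfl⟩ := hx
    rw [Finset.mem_range] at ht
    rw [ehrPoly_eval, gPoly_eval, card_hom_thirteen t ht, poly_spec t ht]
    push_cast
    rw [mul_div_cancel_left₀ _ Dnum_ne]

theorem gPoly_coeff_one : gPoly.coeff 1 = -298495711 / 35302608 := by
  unfold gPoly
  rw [finsetSum_coeff]
  simp only [coeff_C_mul, coeff_X_pow]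
  rw [Finset.sum_eq_single 1]
  · rw [if_pos rfl, mul_one, div_eq_div_iff Dnum_ne (by norm_num)]
    exact_mod_cast coef1
  · intro b _ hb
    rw [if_neg (Ne.symm hb), mul_zero]
  · intro h
    exact absurd (Finset.mem_range.2 (by norm_num)) h

end

end Pool.Agent.Lib.Helper12.PolygonEhrhart
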